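import Mathlib

/-! Linear algebra for cycle classes. -/

set_option autoImplicit false

namespace Pool.Agent.Lib.MP_035963_ag

open Polynomial Module Finset

section

variable {Λ V : Type} [Field Λ] [AddCommGroup V] [Module Λ V] [FiniteDimensional Λ V]

theorem trace_proj (ψ : V →ₗ[Λ] V) :
    ∃ (n : ℕ) (h : Λ[X]), finrank Λ (LinearMap.ker (ψ - 1)) ≤ n ∧ h.eval 1 = 1 ∧ h.coeff 0 = 0 ∧
      ∀ k : ℕ, LinearMap.trace Λ V (aeval ψ (h * X ^ k)) = n := by
  obtain ⟨g, hg, hg'⟩ := exists_eq_pow_rootMultiplicity_mul_and_not_dvd ψ.charpoly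
    ψ.charpoly_monic.ne_zero 1
  obtain ⟨n, hn⟩ : ∃ n, n = rootMultiplicity 1 ψ.charpoly := ⟨_, rfl⟩
  rw [← hn] at hg
  have g1 : g.eval 1 ≠ 0 := fun h => hg' (dvd_iff_isRoot.2 h)
  have hz : aeval ψ ((X - C 1) ^ n * g) = 0 := hg ▸ ψ.aeval_self_charpoly
  let W := LinearMap.ker (aeval ψ ((X - C 1 : Λ[X]) ^ (n + 1)))
  refine ⟨finrank Λ W, C (g.eval 1)⁻¹ * X * g, Submodule.finrank_mono fun x hx => ?_,
    by simp [g1], by simp, fun k => ?_⟩
  · rw [LinearMap.mem_ker] at hx ⊢
    rw [pow_succ, map_mul, Module.End.mul_apply]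
    simp [hx]
  · obtain ⟨P, hP⟩ : ∃ P, P = C (g.eval 1)⁻¹ * X * g * X ^ k := ⟨_, rfl⟩
    rw [← hP]
    have hW : ∀ x, aeval ψ P x ∈ W := fun x => by
      rw [LinearMap.mem_ker, ← Module.End.mul_apply, ← map_mul,
        show (X - C 1) ^ (n + 1) * P = ((X - C 1) * C (g.eval 1)⁻¹ * X * X ^ k) *
          ((X - C 1) ^ n * g) by rw [hP]; ring, map_mul, hz]
      simp
    rw [← LinearMap.trace_restrict_eq_of_forall_mem W _ hW]
    obtain ⟨u, hu⟩ : X - C 1 ∣ P - 1 := dvd_iff_isRoot.2 (by simp [hP, g1])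
    have hW' : ∀ x ∈ W, aeval ψ (P - 1) x ∈ W := fun x hx => by
      rw [map_sub, map_one, LinearMap.sub_apply]
      exact W.sub_mem (hW x) hx
    have hnil : IsNilpotent ((aeval ψ (P - 1)).restrict hW') := by
      refine ⟨n + 1, ?_⟩
      rw [Module.End.pow_restrict]
      ext x
      have hx := LinearMap.mem_ker.1 x.2
      rw [LinearMap.coe_restrict_apply, ← map_pow, hu, mul_pow, mul_comm, map_mul,
        Module.End.mul_apply, hx]
      simp
    have h0 := (LinearMap.isNilpotent_trace_of_isNilpotent hnil).eq_zero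
    have h1 : (aeval ψ P).restrict (fun x _ => hW x) = (aeval ψ (P - 1)).restrict hW' + 1 := by
      ext x
      simp
    rw [h1, map_add, h0, LinearMap.trace_one, zero_add]

theorem fix_le [CharZero Λ] (ψ : V →ₗ[Λ] V) {J : Type} [Fintype J] (z : J → ℂ) (a : ℕ → ℚ)
    (h1 : ∀ m, 0 < m → LinearMap.trace Λ V (ψ ^ m) = a m)
    (h2 : ∀ m, 0 < m → ∑ j, z j ^ m = a m) (T : Finset J) (hT : ∀ j, z j = 1 → j ∈ T) :
    finrank Λ (LinearMap.ker (ψ - 1)) ≤ T.card := by
  classical
  obtain ⟨n, h, hn, e1, e0, e⟩ := trace_proj ψ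
  obtain ⟨l, hl⟩ : ∃ l : Λ →ₗ[ℚ] ℚ, l 1 = 1 := by
    obtain ⟨l, hl⟩ := Module.Projective.exists_dual_eq_one ℚ (one_ne_zero : (1 : Λ) ≠ 0)
    exact ⟨l, hl⟩
  have lq : ∀ (x : Λ) (q : ℚ), l (x * q) = l x * q := fun x q => by
    rw [mul_comm, ← Rat.smul_def, map_smul, smul_eq_mul, mul_comm]
  have s1 : ∑ i ∈ range (h.natDegree + 1), l (h.coeff i) = 1 := by
    rw [← map_sum, ← hl, ← e1, eval_eq_sum_range]
    simp
  have s2 : ∀ k, ∑ i ∈ range (h.natDegree + 1), l (h.coeff i) * a (i + k) = n := fun k => by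
    have := congrArg l (e k)
    rw [map_mul, aeval_eq_sum_range, sum_mul, map_sum, map_sum, ← Rat.cast_natCast,
      ← one_mul ((n : ℚ) : Λ), lq, hl, one_mul] at this
    rw [← this]
    refine sum_congr rfl fun i _ => ?_
    rcases Nat.eq_zero_or_pos i with rfl | hi
    · simp [e0]
    · rw [smul_mul_assoc, map_smul, map_pow, aeval_X, ← pow_add, h1 _ (by omega), smul_eq_mul, lq]
  let H : ℂ → ℂ := fun x => ∑ i ∈ range (h.natDegree + 1), (l (h.coeff i) : ℂ) * x ^ i
  have s3 : ∀ k, ∑ j, H (z j) * z j ^ k = n := fun k => by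
    have := congrArg (Rat.cast : ℚ → ℂ) (s2 k)
    push_cast at this
    simp only [H, sum_mul, ← this]
    rw [sum_comm]
    refine sum_congr rfl fun i _ => ?_
    rcases Nat.eq_zero_or_pos i with rfl | hi
    · simp [e0]
    · rw [← h2 _ (by omega), mul_sum]
      exact sum_congr rfl fun j _ => by ring
  have s4 : ∀ u : ℂ[X], ∑ j, H (z j) * u.eval (z j) = n * u.eval 1 := fun u => by
    induction u using Polynomial.induction_on' with
    | add p q hp hq => simp only [eval_add, mul_add, sum_add_distrib, hp, hq]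
    | monomial k c =>
      simp only [eval_monomial, one_pow, mul_one, ← s3 k, sum_mul]
      exact sum_congr rfl fun j _ => by ring
  have H1 : H 1 = 1 := by
    have := congrArg (Rat.cast : ℚ → ℂ) s1
    push_cast at this
    simpa [H] using this
  let u : ℂ[X] := ∏ j ∈ univ.filter (fun j => z j ≠ 1), (X - C (z j))
  have u1 : u.eval 1 ≠ 0 := by
    simp only [u, eval_prod, eval_sub, eval_X, eval_C]
    exact prod_ne_zero_iff.2 fun j hj => sub_ne_zero.2 (mem_filter.1 hj).2.symm
  have s5 : ∑ j, H (z j) * u.eval (z j) = (univ.filter fun j => z j = 1).card * u.eval 1 := by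
    rw [← sum_filter_add_sum_filter_not univ (fun j => z j = 1), 
      sum_eq_zero (s := filter (fun j => ¬ z j = 1) _), add_zero, ← nsmul_eq_mul, ← sum_const]
    · exact sum_congr rfl fun j hj => by rw [(mem_filter.1 hj).2, H1, one_mul]
    · intro j hj
      rw [mul_eq_zero]
      right
      simp only [u, eval_prod, eval_sub, eval_X, eval_C]
      exact prod_eq_zero hj (sub_self _)
  have s6 : n = (univ.filter fun j => z j = 1).card := by
    exact_mod_cast mul_right_cancel₀ u1 ((s4 u).symm.trans s5)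
  exact hn.trans (s6 ▸ card_le_card fun j hj => hT j (mem_filter.1 hj).2)

theorem exists_fix (φ : V →ₗ[Λ] V) (S : Set V) (h : ∀ x ∈ S, ∃ N, 0 < N ∧ (φ ^ N) x = x) :
    ∃ M, 0 < M ∧ Submodule.span Λ S ≤ LinearMap.ker (φ ^ M - 1) := by
  have key : ∀ (N c : ℕ) (x : V), (φ ^ N) x = x → (φ ^ (N * c)) x = x := fun N c x hx => by
    induction c with
    | zero => simp
    | succ c ih => rw [mul_add, mul_one, pow_add, Module.End.mul_apply, hx, ih]
  have key' : ∀ (N N' : ℕ), N ∣ N' → LinearMap.ker (φ ^ N - 1) ≤ LinearMap.ker (φ ^ N' - 1) := by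
    rintro N _ ⟨c, rfl⟩ x hx
    simp only [LinearMap.mem_ker, LinearMap.sub_apply, Module.End.one_apply, sub_eq_zero] at hx ⊢
    exact key N c x hx
  obtain ⟨n, hn⟩ := monotone_stabilizes_iff_noetherian.2 (inferInstance : IsNoetherian Λ V)
    ⟨fun n => LinearMap.ker (φ ^ n.factorial - 1),
      fun n m hnm => key' _ _ (Nat.factorial_dvd_factorial hnm)⟩
  refine ⟨n.factorial, n.factorial_pos, Submodule.span_le.2 fun x hx => ?_⟩
  obtain ⟨N, hN, hx'⟩ := h x hx
  have := hn (max n N) (le_max_left _ _)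
  simp only [OrderHom.coe_mk] at this
  rw [this]
  refine key' N _ (Nat.dvd_factorial hN (le_max_right _ _)) ?_
  simp [hx']

theorem indep_of_det [CharZero Λ] [Module ℚ V] (β : V →ₗ[Λ] V →ₗ[Λ] Λ) (S : Set V) {T : Type}
    [Fintype T] [DecidableEq T] (v w : T → V) (c : Matrix T T ℤ) (hv : ∀ i, v i ∈ S)
    (hc : ∀ i j, β (v i) (w j) = c i j) (hdet : c.det ≠ 0)
    (hS : ∀ x ∈ S, ∀ j, ∃ q : ℤ, β x (w j) = q)
    (hdim : finrank Λ (Submodule.span Λ S) ≤ Fintype.card T)
    {ι : Type} (u : ι → V) (hu : ∀ i, u i ∈ Submodule.span ℚ S) (hi : LinearIndependent ℚ u) :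
    LinearIndependent Λ u := by
  let B : V →ₗ[Λ] T → Λ := LinearMap.pi fun j => β.flip (w j)
  let U := Submodule.span Λ S
  have hC : (c.map (Int.castRingHom Λ)).det ≠ 0 := by
    rw [← RingHom.mapMatrix_apply, ← RingHom.map_det]
    simpa using hdet
  have hsurj : LinearMap.range (B.domRestrict U) = ⊤ := by
    rw [eq_top_iff, ← (Matrix.linearIndependent_rows_of_det_ne_zero hC).span_eq_top_of_card_eq_finrank'
      (by simp), Submodule.span_le]
    rintro _ ⟨i, rfl⟩
    exact ⟨⟨v i, Submodule.subset_span (hv i)⟩, funext fun j => by simp [B, hc]⟩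
  have hker : LinearMap.ker (B.domRestrict U) = ⊥ := by
    have := (B.domRestrict U).finrank_range_add_finrank_ker
    rw [hsurj, finrank_top, Module.finrank_fintype_fun_eq_card] at this
    exact Submodule.finrank_eq_zero.1 (by change finrank Λ U ≤ _ at hdim; omega)
  have hle : ∀ x ∈ Submodule.span ℚ S, x ∈ U := fun x hx =>
    Submodule.span_le_restrictScalars ℚ Λ S hx
  have hq : ∀ x ∈ Submodule.span ℚ S, ∃ y : T → ℚ, B x = algebraMap ℚ Λ ∘ y := by
    intro x hx
    induction hx using Submodule.span_induction with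
    | mem x hx =>
      choose q hq using hS x hx
      exact ⟨fun j => q j, funext fun j => by simp [B, hq]⟩
    | zero => exact ⟨0, funext fun j => by simp⟩
    | add x y _ _ hx hy =>
      obtain ⟨a, ha⟩ := hx
      obtain ⟨b, hb⟩ := hy
      exact ⟨a + b, funext fun j => by simp [ha, hb]⟩
    | smul t x _ hx =>
      obtain ⟨a, ha⟩ := hx
      exact ⟨t • a, funext fun j => by simp [LinearMap.map_smul_of_tower, ha, Rat.smul_def]⟩
  choose y hy using fun i => hq _ (hu i)
  refine LinearIndependent.of_comp B ?_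
  rw [show B ∘ u = fun i => algebraMap ℚ Λ ∘ y i from funext hy,
    linearIndependent_algebraMap_comp_iff]
  refine LinearIndependent.of_comp (Pi.algebraMap T ℚ Λ) ?_
  rw [show Pi.algebraMap T ℚ Λ ∘ y = B.restrictScalars ℚ ∘ u from (funext hy).symm]
  refine hi.map (Submodule.disjoint_def.2 fun x hx hx' => ?_)
  have hx0 : x ∈ U := hle x (Submodule.span_le.2 (Set.range_subset_iff.2 hu) hx)
  have : (⟨x, hx0⟩ : U) ∈ LinearMap.ker (B.domRestrict U) := hx'
  rw [hker] at this
  exact congrArg Subtype.val this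

omit [FiniteDimensional Λ V] in
theorem inj_of_indep [CharZero Λ] [Module ℚ V] (W : Submodule ℚ V)
    (h : ∀ {ι : Type} (u : ι → V), (∀ i, u i ∈ W) → LinearIndependent ℚ u →
      LinearIndependent Λ u) : Function.Injective (W.subtype.liftBaseChange Λ) := by
  let b := Basis.ofVectorSpace ℚ W
  refine LinearMap.injective_of_linearIndependent (b.baseChange Λ).span_eq ?_
  rw [show W.subtype.liftBaseChange Λ ∘ b.baseChange Λ = fun i => (b i : V) from
    funext fun i => by simp]
  exact h _ (fun i => (b i).2) (b.linearIndependent.map' W.subtype W.ker_subtype)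

end

end Pool.Agent.Lib.MP_035963_ag
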