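import Pool.Agent.Lib.MP_0d42ed_ag.Fermat.Final
import Pool.Agent.Lib.MP_035963_ag.Lin

/-! Existence of intersection numbers and comparison of the two point counts. -/

set_option autoImplicit false

namespace Pool.Agent.Lib.MP_035963_ag

open Pool.Agent.Lib.MP_0d42ed_ag.Fer Finset

theorem exists_inter {k : Type} [Field k] (p : ℕ) [Fact p.Prime] [CharP k p] [IsAlgClosed k]
    (r d : ℕ) (hd : (d : k) ≠ 0) (P Q : Ideal (MvPolynomial (Fin (2 * r + 2)) k))
    (hP : IsSub (∑ x, MvPolynomial.X x ^ d) r P) (hQ : IsSub (∑ x, MvPolynomial.X x ^ d) r Q) :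
    ∃ c, IsInter (∑ x, MvPolynomial.X x ^ d) P Q c := by
  have : NeZero d := ⟨by rintro rfl; exact hd Nat.cast_zero⟩
  have : NeZero (d : k) := ⟨hd⟩
  obtain ⟨ζ, hζ⟩ := HasEnoughRootsOfUnity.exists_primitiveRoot k d
  have g : GenHStmt k := genHStmt regStmt
  have H : Br.Hyp k p d ζ :=
    { prim := hζ
      basic := basicStmt
      chm := chmStmt
      bta := btaStmt
      two := twoStmt chmStmt (elimMStmt chmStmt) btaStmt btbStmt
      blk := blkStmt devStmt
      krep := kRepStmt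
      key := keyStmt p chmStmt btaStmt btbStmt (keyUStmt p chmStmt (gqStmt hiStmt))
      phi := phiStmt p devStmt dimStmt
      sym := symStmt2 chmStmt btaStmt btbStmt
      rank := rank1Stmt hζ basicStmt (All.theta hζ) All.kun (All.swap hζ)
      res := resStmt regStmt g
      hilb := hilbStmt
      inter := interStmt g hilbStmt (torDStmt g) (torHStmt g (torDStmt g))
        (eulerStmt g (torDStmt g)) psStmt
      lin := linStmt hilbStmt
      zero := zeroStmt hζ basicStmt All.msplit All.graph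
      indep := indepStmt g }
  obtain ⟨e, he⟩ := H.hilb.dim _ P (r + 1) hP.2.1 hP.2.2.2.le
  obtain ⟨e', he'⟩ := H.hilb.dim _ Q (r + 1) hQ.2.1 hQ.2.2.2.le
  obtain ⟨c, hc, -⟩ := H.inter_eq hP hQ he he'
  exact ⟨c, hc⟩

theorem solve {F : Type} [Field F] [CharZero F] {N Q : ℕ} (r : ℕ) (hQ : 1 < Q) {t : F}
    (h : (N : F) = 1 + (Q - 1) * (∑ i ∈ (range (2 * r + 1)).erase r, (Q : F) ^ i + Q ^ r * t)) :
    t = ((1 + (N - Q ^ (2 * r + 1)) / ((Q - 1) * Q ^ r) : ℚ) : F) := by
  have h0 : (Q : F) ≠ 0 := Nat.cast_ne_zero.2 (by omega)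
  have h1 : (Q : F) - 1 ≠ 0 := sub_ne_zero.2 (by exact_mod_cast hQ.ne')
  have h2 := add_sum_erase (range (2 * r + 1)) (fun i => (Q : F) ^ i) (a := r) (by simp; omega)
  have h3 := mul_geom_sum (Q : F) (2 * r + 1)
  push_cast
  field_simp
  linear_combination -h - ((Q : F) - 1) * h2 - h3

theorem solve' {N Q : ℕ} (r : ℕ) (hQ : 1 < Q) {t : ℂ}
    (h : (N : ℂ) = Q ^ (2 * r + 1) + (Q - 1) * t) :
    1 + t / Q ^ r = ((1 + (N - Q ^ (2 * r + 1)) / ((Q - 1) * Q ^ r) : ℚ) : ℂ) := by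
  have h0 : (Q : ℂ) ≠ 0 := Nat.cast_ne_zero.2 (by omega)
  have h1 : (Q : ℂ) - 1 ≠ 0 := sub_ne_zero.2 (by exact_mod_cast hQ.ne')
  push_cast
  field_simp
  linear_combination -h

theorem dim_le (K : Type) [Field K] [Fintype K] (p d r : ℕ) [Fact p.Prime] [CharP K p]
    {ι : Type} [Fintype ι] (ω : ι → ℂ)
    (hω : ∀ (L : Type) [Field L] [Fintype L] [Algebra K L],
      (Nat.card {x : Fin (2 * r + 2) → L // ∑ i, x i ^ d = 0} : ℂ) =
        (Fintype.card L : ℂ) ^ (2 * r + 1) +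
          (Fintype.card L - 1) * ∑ j, ω j ^ Module.finrank K L)
    {Λ V : Type} [Field Λ] [CharZero Λ] [AddCommGroup V] [Module Λ V] [FiniteDimensional Λ V]
    (φ : V →ₗ[Λ] V)
    (htr : ∀ (L : Type) [Field L] [Fintype L] [Algebra K L],
      (Nat.card {x : Fin (2 * r + 2) → L // ∑ i, x i ^ d = 0} : Λ) =
        1 + (Fintype.card L - 1) * (∑ i ∈ (range (2 * r + 1)).erase r, (Fintype.card L : Λ) ^ i +
          Fintype.card L ^ r * LinearMap.trace Λ V (φ ^ Module.finrank K L)))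
    (S : Set V) (hS : ∀ x ∈ S, ∃ N, 0 < N ∧ (φ ^ N) x = x) (T : Finset ι)
    (hT : ∀ j, (∃ N : ℕ, 0 < N ∧ ω j ^ N = (Fintype.card K : ℂ) ^ (r * N)) → j ∈ T) :
    Module.finrank Λ (Submodule.span Λ S) ≤ Fintype.card (Option T) := by
  classical
  obtain ⟨M, hM, hle⟩ := exists_fix φ S hS
  have hq : (Fintype.card K : ℂ) ≠ 0 := Nat.cast_ne_zero.2 Fintype.card_ne_zero
  have key : ∀ m, 0 < m → ∃ a : ℚ, LinearMap.trace Λ V (φ ^ m) = a ∧
      1 + ∑ j, (ω j / Fintype.card K ^ r) ^ m = a := fun m hm => by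
    have : NeZero m := ⟨hm.ne'⟩
    let L := FiniteField.Extension K p m
    have : Fintype L := Fintype.ofFinite L
    have h1 := solve r Fintype.one_lt_card (htr L)
    have h2 := solve' r Fintype.one_lt_card (hω L)
    have h3 : Module.finrank K L = m := FiniteField.finrank_extension K p m
    rw [h3] at h1 h2
    refine ⟨_, h1, Eq.trans ?_ h2⟩
    rw [Module.card_eq_pow_finrank (K := K) (V := L), h3, sum_div]
    simp only [div_pow, Nat.cast_pow, ← pow_mul, mul_comm]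
  choose! a ha hb using key
  refine (Submodule.finrank_mono hle).trans ((fix_le (φ ^ M)
    (fun j : Option ι => j.elim 1 fun j => (ω j / Fintype.card K ^ r) ^ M) (fun m => a (M * m))
    (fun m hm => by rw [← pow_mul, ha _ (mul_pos hM hm)])
    (fun m hm => by simp [← pow_mul, ← hb _ (mul_pos hM hm)]) (insertNone T) ?_).trans (by simp))
  rintro (_ | j) hj
  · simp
  · refine some_mem_insertNone.2 (hT j ⟨M, hM, ?_⟩)
    rwa [Option.elim, div_pow, div_eq_one_iff_eq (by simp [hq]), ← pow_mul] at hj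

end Pool.Agent.Lib.MP_035963_ag
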